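import Pool.Agent.K3h16.MI.Stm

/-! Brick STOKES of project MI (helper16): the theorem of Stokes on a closed submanifold. -/

set_option autoImplicit false

open MeasureTheory Set Filter Topology
open scoped ContDiff

namespace Pool.Agent.K3h35.MI

open Pool.Agent.K3h16.MI

section

variable {m n : ℕ}

/-- the determinant of the derivatives of `φ` on a frame -/
noncomputable def dd (e : E n → Fin m → E n) (φ : Fin m → E n → ℝ) (y : E n) : ℝ :=
  Matrix.det (Matrix.of fun a b => fderiv ℝ (φ a) y (e y b))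

theorem dd_zero (e : E n → Fin m → E n) (φ : Fin m → E n → ℝ) (y : E n) (i : Fin m)
    (h : fderiv ℝ (φ i) y = 0) : dd e φ y = 0 := by
  unfold dd
  refine Matrix.det_eq_zero_of_row_eq_zero i fun b => ?_
  rw [Matrix.of_apply, h, zero_apply]

theorem dd_update (e : E n → Fin m → E n) (φ : Fin m → E n → ℝ) (y : E n) (i : Fin m)
    (f : E n → ℝ) : dd e (Function.update φ i f) y =
      Matrix.detRowAlternating (Function.update (fun a b => fderiv ℝ (φ a) y (e y b)) i
        fun b => fderiv ℝ f y (e y b)) := by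
  unfold dd
  show Matrix.det _ = Matrix.det _
  congr 1
  ext a b
  rw [Matrix.of_apply]
  by_cases ha : a = i
  · subst ha
    rw [Function.update_self, Function.update_self]
  · rw [Function.update_of_ne ha, Function.update_of_ne ha]

theorem dd_sum (e : E n → Fin m → E n) (φ : Fin m → E n → ℝ) (y : E n) (i : Fin m) {K : ℕ}
    (f : Fin K → E n → ℝ) (h : ∑ k, fderiv ℝ (f k) y = fderiv ℝ (φ i) y) :
    ∑ k, dd e (Function.update φ i (f k)) y = dd e φ y := by
  have h1 : dd e φ y = Matrix.detRowAlternating (Function.update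
      (fun a b => fderiv ℝ (φ a) y (e y b)) i (∑ k, fun b => fderiv ℝ (f k) y (e y b))) := by
    have h2 : (∑ k, fun b => fderiv ℝ (f k) y (e y b)) = fun b => fderiv ℝ (φ i) y (e y b) := by
      funext b
      rw [Finset.sum_apply, ← h, sum_apply]
    rw [h2, Function.update_eq_self]
    rfl
  rw [h1, AlternatingMap.map_update_sum]
  refine Finset.sum_congr rfl fun k _ => ?_
  exact dd_update e φ y i (f k)

/-- the part of the form in one chart -/
theorem chart_part (hCHI : S_CHI) (hKD : S_KD1) (hP : S_PIOLA) (M : Set (E n))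
    (e : E n → Fin m → E n) (v : Measure (E n)) (hO : IsOCS M e v) (i : Fin m)
    (φ : Fin m → E n → ℝ) (hφ : ∀ j, j ≠ i → ContDiff ℝ ∞ (φ j)) (hφi : ContDiff ℝ 1 (φ i))
    (γ : E m → E n) (hγ : IsParam M γ) (hor : ∀ u, SameOr (e (γ u)) (pd γ u))
    (hcs : HasCompactSupport fun u => φ i (γ u))
    (h0 : ∀ x ∈ M, x ∉ range γ → fderiv ℝ (φ i) x = 0) :
    Integrable (dd e φ) v ∧ ∫ y, dd e φ y ∂v = 0 := by
  have h1 : ∀ a, ContDiff ℝ 1 (φ a) := by
    intro a
    by_cases ha : a = i
    · rw [ha]; exact hφi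
    · exact (hφ a ha).of_le (by exact_mod_cast le_top)
  have hγ1 : ContDiff ℝ 1 γ := hγ.smooth.of_le (by exact_mod_cast le_top)
  have hγM : ∀ u, γ u ∈ M := by
    intro u
    obtain ⟨V, -, hV⟩ := hγ.open_range
    have : γ u ∈ M ∩ V := by rw [← hV]; exact ⟨u, rfl⟩
    exact this.1
  -- the pulled back determinant
  have hpull : ∀ u, jac γ u * dd e φ (γ u) =
      Matrix.det (Matrix.of fun a b => fderiv ℝ (φ a ∘ γ) u (EuclideanSpace.single b 1)) := by
    intro u
    have h2 := (hKD m n (e (γ u)) (pd γ u) (hO.orthonormal _ (hγM u)) (hor u)).2.2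
      fun a => fderiv ℝ (φ a) (γ u)
    unfold dd jac
    rw [← h2]
    congr 1
    ext a b
    rw [Matrix.of_apply, Matrix.of_apply,
      fderiv_comp u ((h1 a).differentiable one_ne_zero _) (hγ1.differentiable one_ne_zero _)]
    rfl
  have hcomp1 : ∀ a, ContDiff ℝ 1 (φ a ∘ γ) := fun a => (h1 a).comp hγ1
  have hcont : Continuous fun u => Matrix.det (Matrix.of fun a b =>
      fderiv ℝ (φ a ∘ γ) u (EuclideanSpace.single b 1)) := by
    refine Continuous.matrix_det ?_
    refine continuous_matrix fun a b => ?_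
    exact ((hcomp1 a).continuous_fderiv one_ne_zero).clm_apply continuous_const
  have hcs' : HasCompactSupport fun u => Matrix.det (Matrix.of fun a b =>
      fderiv ℝ (φ a ∘ γ) u (EuclideanSpace.single b 1)) := by
    refine HasCompactSupport.intro' (K := tsupport (φ i ∘ γ)) hcs (isClosed_tsupport _) ?_
    intro u hu
    refine Matrix.det_eq_zero_of_row_eq_zero i fun b => ?_
    have h3 : fderiv ℝ (φ i ∘ γ) u = 0 := by
      have h4 : (φ i ∘ γ) =ᶠ[𝓝 u] fun _ => 0 := by
        have := (isClosed_tsupport (φ i ∘ γ)).isOpen_compl.mem_nhds hu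
        filter_upwards [this] with w hw
        exact image_eq_zero_of_notMem_tsupport hw
      rw [h4.fderiv_eq, fderiv_const_apply]
    rw [Matrix.of_apply, h3, zero_apply]
  have hint := hcont.integrable_of_hasCompactSupport (μ := (volume : Measure (E m))) hcs'
  have hz := hP m i (fun a => φ a ∘ γ) (fun j hj => (hφ j hj).comp hγ.smooth) (hcomp1 i) hcs
  have hfun : (fun u => (jac γ u : ℂ) * ((dd e φ (γ u) : ℝ) : ℂ)) = fun u =>
      ((Matrix.det (Matrix.of fun a b =>
        fderiv ℝ (φ a ∘ γ) u (EuclideanSpace.single b 1)) : ℝ) : ℂ) := by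
    funext u
    rw [← hpull u, Complex.ofReal_mul]
  obtain ⟨hc1, hc2⟩ := hCHI m n M e v hO γ hγ (fun y => ((dd e φ y : ℝ) : ℂ)) (by
    intro x hx hxr
    rw [dd_zero e φ x i (h0 x hx hxr), Complex.ofReal_zero])
  rw [hfun] at hc1 hc2
  constructor
  · have h5 : Integrable (fun y => ((dd e φ y : ℝ) : ℂ)) v := hc2.2 hint.ofReal
    exact h5.re
  · have h6 : ((∫ y, dd e φ y ∂v : ℝ) : ℂ) = 0 := by
      rw [← integral_complex_ofReal, hc1, integral_complex_ofReal, hz, Complex.ofReal_zero]
    exact_mod_cast h6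

end

theorem t_STOKES : S_POU → S_CHI → S_KD1 → S_PIOLA → S_STOKES := by
  intro hPOU hCHI hKD hP m n M e v hO i φ hφ hφi
  obtain ⟨K, γ, χ, η, W, δ, hW, hMW, -, hsum, hk⟩ := hPOU m n M e v hO
  let f : Fin K → E n → ℝ := fun k y => χ k y * φ i y
  have hχ : ∀ k, ContDiff ℝ ∞ (χ k) := fun k => (hk k).2.2.1
  have hχ1 : ∀ k, ContDiff ℝ 1 (χ k) := fun k => (hχ k).of_le (by exact_mod_cast le_top)
  have hf : ∀ k, ContDiff ℝ 1 (f k) := fun k => (hχ1 k).mul hφi
  have hpart : ∀ k, Integrable (dd e (Function.update φ i (f k))) v ∧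
      ∫ y, dd e (Function.update φ i (f k)) y ∂v = 0 := by
    intro k
    refine chart_part hCHI hKD hP M e v hO i _ ?_ ?_ (γ k) (hk k).1 (hk k).2.1 ?_ ?_
    · intro j hj
      rw [Function.update_of_ne hj]
      exact hφ j hj
    · rw [Function.update_self]
      exact hf k
    · rw [Function.update_self]
      exact HasCompactSupport.mul_right (f := fun u => χ k (γ k u)) (f' := fun u => φ i (γ k u))
        (hk k).2.2.2.2.1
    · intro x hx hxr
      rw [Function.update_self]
      have h1 : x ∉ tsupport (χ k) := (hk k).2.2.2.2.2.2.2.2 x hx hxr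
      have h2 : f k =ᶠ[𝓝 x] fun _ => 0 := by
        have := (isClosed_tsupport (χ k)).isOpen_compl.mem_nhds h1
        filter_upwards [this] with w hw
        show χ k w * φ i w = 0
        rw [image_eq_zero_of_notMem_tsupport hw, zero_mul]
      rw [h2.fderiv_eq, fderiv_const_apply]
  have hM : ∀ᵐ y ∂v, y ∈ M := by
    rw [ae_iff]
    exact hO.vol_compl
  have hae : (fun y => ∑ k, dd e (Function.update φ i (f k)) y) =ᵐ[v] dd e φ := by
    filter_upwards [hM] with y hy
    refine dd_sum e φ y i f ?_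
    have h1 : (fun w => ∑ k, f k w) =ᶠ[𝓝 y] φ i := by
      filter_upwards [hW.mem_nhds (hMW hy)] with w hw
      show ∑ k, χ k w * φ i w = φ i w
      rw [← Finset.sum_mul, hsum w hw, one_mul]
    rw [← h1.fderiv_eq, fderiv_fun_sum fun k _ => (hf k).differentiable one_ne_zero _]
  constructor
  · exact (integrable_finsetSum _ fun k _ => (hpart k).1).congr hae
  · have h2 : ∫ y, dd e φ y ∂v = 0 := by
      rw [← integral_congr_ae hae, integral_finsetSum _ fun k _ => (hpart k).1]
      exact Finset.sum_eq_zero fun k _ => (hpart k).2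
    exact h2

end Pool.Agent.K3h35.MI
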